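import Pool.Agent.J4H26.SI.Stm

/-!
# Project SI, piece (I1): the classes with exponents far from each other are independent
-/

set_option autoImplicit false

namespace Pool.Agent.J4H30.SI

open Finset Filter Real
open Pool.Agent.J4H39 (T od od_le T_add T_lt)
open Pool.Agent.J4H26.PC (InvS ct kS Iv)
open Pool.Agent.J4H26.KP Pool.Agent.J4H26.SI

/-- iterated invariance -/
theorem iv_iter {f : ℤ → ℝ} (hf : Iv f) (j : ℕ) : ∀ n, f (T^[j] n) = f n := by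
  induction j with
  | zero => intro n; rfl
  | succ j ih =>
    intro n
    rw [Function.iterate_succ_apply', hf.inv, ih]

theorem t_CLS : S_UNM2 → S_RST → S_CENTK → S_CLS := by
  rintro hU hR ⟨ψ, hψ, hC⟩ K ε hε
  obtain ⟨G, hG, hU⟩ := hU ψ hψ K (ε / 2) (by linarith)
  refine ⟨G, hG, ?_⟩
  filter_upwards [hU, hR K (ε / 2) (by linarith), eventually_ge_atTop 1] with L hL1 hL2 hL3
  intro s hs R hRi δ hδ X hX hL hL' m D hm hfar c hc
  obtain ⟨mm, hm1, hm2⟩ := hC 1 s hs (fun _ => R) (fun _ => hRi)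
  have hset : {n : ℤ | ∀ i ∈ (univ : Finset (Fin 1)), n ∈ (fun _ : Fin 1 => R) i} = R := by
    ext n
    simp
  have hmu : mm univ = δ := by
    have h1 := hm1 univ
    rw [hset] at h1
    exact tendsto_nhds_unique h1 hδ
  have hMn : MnQ ψ (gR s R) (kS s) δ := by
    have h1 := hm2 univ univ_nonempty
    rw [hmu] at h1
    simpa using h1
  have hIv : Iv (gR s R) := hMn.1
  have hL3' : (1 : ℝ) ≤ L := by exact_mod_cast hL3
  have hDm : ∀ i, D i ≤ m := by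
    intro i
    rw [← (hc i).2.2]
    exact od_le m (c i)
  have hD : ∀ i, (D i : ℝ) ≤ (L : ℝ) ^ (57 / 100 : ℝ) := by
    intro i
    have h1 : (D i : ℝ) ≤ m := by exact_mod_cast hDm i
    have h2 : (L : ℝ) ^ (11 / 20 : ℝ) ≤ (L : ℝ) ^ (57 / 100 : ℝ) :=
      Real.rpow_le_rpow_of_exponent_le hL3' (by norm_num)
    linarith
  have hu := hL1 (fun _ => gR s R) (kS s) (fun _ => δ) (fun _ => hMn) X hX hL hL' D hD hfar
  have hκ : |kS s| ≤ 1 := by
    unfold kS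
    split_ifs <;> simp
  have hX2 : (2 : ℝ) ^ L ≤ X := by
    rw [← Real.rpow_natCast]
    exact (Real.le_logb_iff_rpow_le (by norm_num) hX).1 hL
  have hmf : m ≤ ⌊(L : ℝ) ^ (3 / 4 : ℝ)⌋₊ := by
    apply Nat.le_floor
    have h2 : (L : ℝ) ^ (11 / 20 : ℝ) ≤ (L : ℝ) ^ (3 / 4 : ℝ) :=
      Real.rpow_le_rpow_of_exponent_le hL3' (by norm_num)
    linarith
  have hr : ∀ i, |T^[m] (c i)| ≤ 4 ^ ⌊(L : ℝ) ^ (3 / 4 : ℝ)⌋₊ := by
    intro i
    obtain ⟨h0, h1, h2⟩ := hc i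
    obtain ⟨h3, h4⟩ := T_lt m (c i) h0 h1
    rw [abs_of_nonneg h3]
    rw [h2] at h4
    have h5 : (3 : ℤ) ^ D i ≤ 4 ^ ⌊(L : ℝ) ^ (3 / 4 : ℝ)⌋₊ := by
      calc (3 : ℤ) ^ D i ≤ 3 ^ ⌊(L : ℝ) ^ (3 / 4 : ℝ)⌋₊ :=
            pow_le_pow_right₀ (by norm_num) ((hDm i).trans hmf)
        _ ≤ 4 ^ ⌊(L : ℝ) ^ (3 / 4 : ℝ)⌋₊ := pow_le_pow_left₀ (by norm_num) (by norm_num) _
    linarith
  have hs2 := hL2 (fun _ => gR s R) (fun _ => hIv) (kS s) X hκ hX2 D (fun i => T^[m] (c i)) hr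
  have e : ccK (fun _ : Fin K => gR s R) (kS s) X D (fun i => T^[m] (c i)) =
      (∑ y ∈ Finset.Ico ⌈kS s * X⌉ ⌈kS s * X + X⌉, ∏ i, gR s R (2 ^ m * y + c i)) / max X 1 := by
    unfold ccK
    congr 1
    apply sum_congr rfl
    intro y _
    apply prod_congr rfl
    intro i _
    rw [← iv_iter hIv m (2 ^ m * y + c i), show 2 ^ m * y + c i = c i + 2 ^ m * y by ring, T_add,
      (hc i).2.2, add_comm]
  rw [e] at hs2
  have hp : ∏ _i : Fin K, δ = δ ^ K := by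
    rw [prod_const, card_univ, Fintype.card_fin]
  rw [hp] at hu
  have h6 := abs_sub_le ((∑ y ∈ Finset.Ico ⌈kS s * X⌉ ⌈kS s * X + X⌉, ∏ i, gR s R (2 ^ m * y + c i)) / max X 1)
    (ccK (fun _ : Fin K => gR s R) (kS s) X D (fun _ => 0)) (δ ^ K)
  linarith

end Pool.Agent.J4H30.SI
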