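import Pool.Agent.J4H26.SI.Stm

/-!
# Project SI, piece (I4): from blocks to all short intervals
-/

set_option autoImplicit false

namespace Pool.Agent.J4H30.SI

open Finset Filter Real
open Pool.Agent.J4H39 (T od)
open Pool.Agent.J4H26.PC (InvS ct kS)
open Pool.Agent.J4H26.SI

open Classical in
/-- the number of the elements of `R` in the block `p y + [0, p)` -/
noncomputable def cb (p : ℕ) (R : Set ℤ) (y : ℤ) : ℕ := #((range p).filter fun c : ℕ => (p : ℤ) * y + c ∈ R)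

open Classical in
/-- the number of the elements of `R` in `a + 1, …, a + H` -/
noncomputable def ch (H : ℕ) (R : Set ℤ) (a : ℤ) : ℕ := #((Icc 1 H).filter fun h : ℕ => a + h ∈ R)

theorem blocks {p H : ℕ} (hp : 0 < p) (R : Set ℤ) (a : ℤ) (Z : Finset ℤ)
    (hZ : ∀ y ∈ Z, a + 1 ≤ p * y ∧ (p : ℤ) * y + p ≤ a + H) : ∑ y ∈ Z, cb p R y ≤ ch H R a := by
  classical
  unfold cb ch
  rw [← card_sigma]
  apply card_le_card_of_injOn (fun z : (_ : ℤ) × ℕ => ((p : ℤ) * z.1 + z.2 - a).toNat)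
  · rintro ⟨y, c⟩ h
    simp only [coe_sigma, Set.mem_sigma_iff, mem_coe, mem_filter, mem_range] at h
    obtain ⟨h1, h2, h3⟩ := h
    obtain ⟨h4, h5⟩ := hZ y h1
    simp only [coe_filter, Set.mem_ofPred_eq, mem_Icc]
    have e : ((((p : ℤ) * y + c - a).toNat : ℕ) : ℤ) = (p : ℤ) * y + c - a := Int.toNat_of_nonneg (by omega)
    refine ⟨⟨by omega, by omega⟩, ?_⟩
    rw [e]
    convert h3 using 1
    ring
  · rintro ⟨y, c⟩ h ⟨y', c'⟩ h' he
    simp only [coe_sigma, Set.mem_sigma_iff, mem_coe, mem_filter, mem_range] at h h' he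
    obtain ⟨h1, h2, -⟩ := h
    obtain ⟨h1', h2', -⟩ := h'
    obtain ⟨h4, h5⟩ := hZ y h1
    obtain ⟨h4', h5'⟩ := hZ y' h1'
    have e : (p : ℤ) * y + c = (p : ℤ) * y' + c' := by omega
    have hpz : (0 : ℤ) < p := by exact_mod_cast hp
    have e1 : ((p : ℤ) * y + c) / p = y := by
      rw [Int.mul_add_ediv_left _ _ hpz.ne', Int.ediv_eq_zero_of_lt (by omega) (by omega), add_zero]
    have e2 : ((p : ℤ) * y' + c') / p = y' := by
      rw [Int.mul_add_ediv_left _ _ hpz.ne', Int.ediv_eq_zero_of_lt (by omega) (by omega), add_zero]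
    have e3 : y = y' := by rw [← e1, ← e2, e]
    subst e3
    have e4 : c = c' := by omega
    subst e4
    rfl

/-- blocks inside `a + 1, …, a + H` -/
noncomputable def Yb (p H : ℕ) (a : ℤ) : Finset ℤ := Finset.Ico (a / p + 1) (a / p + 1 + ((H / p - 1 : ℕ) : ℤ))

theorem Yb_mem {p H : ℕ} (hp : 0 < p) {a y : ℤ} (hy : y ∈ Yb p H a) :
    a + 1 ≤ p * y ∧ (p : ℤ) * y + p ≤ a + H := by
  unfold Yb at hy
  rw [Finset.mem_Ico] at hy
  obtain ⟨h1, h2⟩ := hy
  have hpz : (0 : ℤ) < p := by exact_mod_cast hp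
  have h3 := Int.emod_add_mul_ediv a p
  have h4 := Int.emod_nonneg a hpz.ne'
  have h5 := Int.emod_lt_of_pos a hpz
  constructor
  · have : (p : ℤ) * (a / p + 1) ≤ p * y := mul_le_mul_of_nonneg_left h1 hpz.le
    nlinarith
  · have h6 : y + 1 ≤ a / p + 1 + ((H / p - 1 : ℕ) : ℤ) := h2
    have h7 : ((H / p - 1 : ℕ) : ℤ) + 1 ≤ ((H / p : ℕ) : ℤ) := by
      have : 0 < H / p - 1 := by
        by_contra hc
        have : ((H / p - 1 : ℕ) : ℤ) = 0 := by
          have : H / p - 1 = 0 := by omega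
          exact_mod_cast this
        omega
      have : H / p - 1 + 1 ≤ H / p := by omega
      exact_mod_cast this
    have h8 : (p : ℤ) * ((H / p : ℕ) : ℤ) ≤ H := by exact_mod_cast Nat.mul_div_le H p
    have h9 : (p : ℤ) * (y + 1) ≤ p * (a / p + ((H / p : ℕ) : ℤ)) := mul_le_mul_of_nonneg_left (by linarith) hpz.le
    nlinarith

theorem Yb_card {p H : ℕ} (hp : 0 < p) (hH : 4 * p ≤ H) (a : ℤ) :
    (H : ℝ) / (2 * p) ≤ #(Yb p H a) := by
  unfold Yb
  rw [Int.card_Ico]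
  have e : (a / (p : ℤ) + 1 + ((H / p - 1 : ℕ) : ℤ) - (a / p + 1)).toNat = H / p - 1 := by
    rw [add_sub_cancel_left, Int.toNat_natCast]
  rw [e]
  have h1 : H < p * (H / p + 1) := by
    rw [mul_comm]
    exact Nat.lt_mul_of_div_lt (Nat.lt_succ_self _) hp
  have h4 : 4 ≤ H / p := (Nat.le_div_iff_mul_le hp).2 hH
  obtain ⟨q, hq⟩ : ∃ q, H / p = q + 1 := ⟨H / p - 1, by omega⟩
  rw [hq] at h1 h4 ⊢
  simp only [Nat.add_sub_cancel]
  have hpr : (0 : ℝ) < p := by exact_mod_cast hp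
  rw [div_le_iff₀ (by positivity)]
  have h2 : (H : ℝ) < p * (q + 1 + 1) := by exact_mod_cast h1
  have h3 : (3 : ℝ) ≤ q := by
    have : 3 ≤ q := by omega
    exact_mod_cast this
  nlinarith

theorem comb {p H : ℕ} (hp : 0 < p) (hH : 4 * p ≤ H) {s : ℤ} (hs : s = 1 ∨ s = -1) (E : Finset ℕ)
    (Bad : Finset ℤ) (R : Set ℤ) (v w : ℝ) (hv : 0 ≤ v) (hE : ∀ n ∈ E, (ch H R (s * n) : ℝ) < w)
    (hg : ∀ n ∈ E, ∀ y ∈ Yb p H (s * n), y ∉ Bad → v ≤ cb p R y) (hvw : w ≤ (H : ℝ) / (4 * p) * v) :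
    (#E : ℝ) * ((H : ℝ) / (4 * p)) ≤ #Bad * H := by
  classical
  have hpr : (0 : ℝ) < p := by exact_mod_cast hp
  have h1 : ∀ n ∈ E, (H : ℝ) / (4 * p) ≤ #((Yb p H (s * n)).filter (fun y => y ∈ Bad)) := by
    intro n hn
    have h2 := Yb_card hp hH (s * n)
    have h3 : #((Yb p H (s * n)).filter (fun y => y ∈ Bad)) + #((Yb p H (s * n)).filter (fun y => y ∉ Bad)) =
        #(Yb p H (s * n)) := Finset.card_filter_add_card_filter_not _
    have h4 : (#((Yb p H (s * n)).filter (fun y => y ∉ Bad)) : ℝ) * v ≤ ch H R (s * n) := by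
      have h5 := blocks hp R (s * n) ((Yb p H (s * n)).filter (fun y => y ∉ Bad))
        (fun y hy => Yb_mem hp (mem_filter.1 hy).1)
      have h6 : (#((Yb p H (s * n)).filter (fun y => y ∉ Bad)) : ℝ) * v ≤
          ∑ y ∈ (Yb p H (s * n)).filter (fun y => y ∉ Bad), (cb p R y : ℝ) := by
        rw [← nsmul_eq_mul]
        exact card_nsmul_le_sum _ _ _ (fun y hy => hg n hn y (mem_filter.1 hy).1 (mem_filter.1 hy).2)
      refine h6.trans ?_
      exact_mod_cast h5
    have h5 : (#((Yb p H (s * n)).filter (fun y => y ∉ Bad)) : ℝ) * v < (H : ℝ) / (4 * p) * v :=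
      (h4.trans_lt (hE n hn)).trans_le hvw
    have h6 : (#((Yb p H (s * n)).filter (fun y => y ∉ Bad)) : ℝ) < (H : ℝ) / (4 * p) :=
      lt_of_mul_lt_mul_right h5 hv
    have h7 : (#((Yb p H (s * n)).filter (fun y => y ∈ Bad)) : ℝ) +
        #((Yb p H (s * n)).filter (fun y => y ∉ Bad)) = #(Yb p H (s * n)) := by exact_mod_cast h3
    have h8 : (H : ℝ) / (2 * p) = H / (4 * p) + H / (4 * p) := by field_simp; ring
    linarith
  have h2 : (#E : ℝ) * ((H : ℝ) / (4 * p)) ≤ ∑ n ∈ E, (#((Yb p H (s * n)).filter (fun y => y ∈ Bad)) : ℝ) := by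
    rw [← nsmul_eq_mul]
    exact card_nsmul_le_sum _ _ _ h1
  refine h2.trans ?_
  have h3 : ∑ n ∈ E, #((Yb p H (s * n)).filter (fun y => y ∈ Bad)) =
      ∑ y ∈ Bad, #(E.filter (fun n : ℕ => y ∈ Yb p H (s * n))) := by
    have e1 : ∀ n ∈ E, #((Yb p H (s * n)).filter (fun y => y ∈ Bad)) =
        ∑ y ∈ Bad, if y ∈ Yb p H (s * n) then 1 else 0 := by
      intro n _
      rw [← card_filter]
      congr 1
      ext y
      simp only [mem_filter]
      exact and_comm
    rw [sum_congr rfl e1, sum_comm]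
    apply sum_congr rfl
    intro y _
    rw [card_filter]
  have h4 : ∀ y ∈ Bad, #(E.filter (fun n : ℕ => y ∈ Yb p H (s * n))) ≤ H := by
    intro y _
    have h5 : #(E.filter (fun n : ℕ => y ∈ Yb p H (s * n))) ≤ #(Finset.Ico ((p : ℤ) * y + p - H) ((p : ℤ) * y)) := by
      apply card_le_card_of_injOn (fun n : ℕ => s * (n : ℤ))
      · intro n hn
        simp only [coe_filter, Set.mem_ofPred_eq] at hn
        have h6 := Yb_mem hp hn.2
        simp only [coe_Ico, Set.mem_Ico]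
        constructor <;> linarith [h6.1, h6.2]
      · intro n _ n' _ h
        simp only at h
        rcases hs with rfl | rfl <;> omega
    refine h5.trans ?_
    rw [Int.card_Ico]
    omega
  have h5 : ∑ n ∈ E, #((Yb p H (s * n)).filter (fun y => y ∈ Bad)) ≤ #Bad * H := by
    rw [h3]
    refine (sum_le_card_nsmul _ _ _ h4).trans ?_
    rw [smul_eq_mul]
  exact_mod_cast h5

theorem cb_eq (p : ℕ) (R : Set ℤ) (y : ℤ) : {c : ℕ | c < p ∧ (p : ℤ) * y + c ∈ R}.ncard = cb p R y := by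
  classical
  unfold cb
  rw [← Set.ncard_coe_finset]
  congr 1
  ext c
  simp

theorem ch_eq (H : ℕ) (R : Set ℤ) (a : ℤ) : {h : ℕ | (1 ≤ h ∧ h ≤ H) ∧ a + h ∈ R}.ncard = ch H R a := by
  classical
  unfold ch
  rw [← Set.ncard_coe_finset]
  congr 1
  ext c
  simp

/-- growth conditions, in `x = √ log₂ N` -/
theorem grow (C κ B : ℝ) (hC : 0 < C) (hκ : 0 < κ) : ∀ᶠ x : ℝ in atTop, 1 ≤ x ∧ x ^ 2 / 2 ≤ x ^ 2 - C * x - 1 ∧
    C * x + 1 ≤ (x ^ 2 / 2) ^ (11 / 20 : ℝ) ∧ B ≤ x ^ 2 / 2 ∧ 4 / κ ≤ C * x := by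
  have h1 := (tendsto_rpow_atTop (show (0 : ℝ) < 1 / 10 by norm_num)).eventually_ge_atTop (2 * C + 2)
  filter_upwards [h1, eventually_ge_atTop (2 * C + 2), eventually_ge_atTop (2 * B), eventually_ge_atTop 2,
    eventually_ge_atTop (4 / κ / C)] with x g1 g2 g3 g4 g5
  have hx0 : 0 < x := by linarith
  refine ⟨by linarith, by nlinarith, ?_, by nlinarith, ?_⟩
  · have e1 : (x ^ 2 / 2) ^ (11 / 20 : ℝ) = x * x ^ (1 / 10 : ℝ) / 2 ^ (11 / 20 : ℝ) := by
      rw [Real.div_rpow (by positivity) (by norm_num), ← Real.rpow_natCast, ← Real.rpow_mul hx0.le]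
      congr 1
      rw [show ((2 : ℕ) : ℝ) * (11 / 20 : ℝ) = 1 + 1 / 10 by norm_num, Real.rpow_add hx0, Real.rpow_one]
    have e2 : (2 : ℝ) ^ (11 / 20 : ℝ) ≤ 2 := by
      calc (2 : ℝ) ^ (11 / 20 : ℝ) ≤ (2 : ℝ) ^ (1 : ℝ) :=
            Real.rpow_le_rpow_of_exponent_le (by norm_num) (by norm_num)
        _ = 2 := Real.rpow_one _
    rw [e1, le_div_iff₀ (by positivity)]
    have h3 : x * (2 * C + 2) ≤ x * x ^ (1 / 10 : ℝ) := mul_le_mul_of_nonneg_left g1 hx0.le
    have h4 : (C * x + 1) * 2 ^ (11 / 20 : ℝ) ≤ (C * x + 1) * 2 := mul_le_mul_of_nonneg_left e2 (by positivity)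
    nlinarith
  · rw [div_le_iff₀ hC] at g5
    linarith

theorem t_SI : S_BLO → S_SI := by
  intro hB η κ δ₀ hη hκ hκ1 hδ₀
  obtain ⟨C, hC, hB⟩ := hB (η / 16) (κ / 2) δ₀ (by linarith) (by linarith) hδ₀
  obtain ⟨L₀, hL₀⟩ := eventually_atTop.1 hB
  refine ⟨C + 3, by linarith, ?_⟩
  have hx : Tendsto (fun N : ℕ => √(logb 2 (N : ℝ))) atTop atTop := by
    apply Real.tendsto_sqrt_atTop.comp
    exact (Real.tendsto_logb_atTop (by norm_num)).comp tendsto_natCast_atTop_atTop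
  have hlogN : Tendsto (fun N : ℕ => Real.log (N : ℝ)) atTop atTop :=
    Real.tendsto_log_atTop.comp tendsto_natCast_atTop_atTop
  have hsN : Tendsto (fun N : ℕ => √(N : ℝ)) atTop atTop :=
    Real.tendsto_sqrt_atTop.comp tendsto_natCast_atTop_atTop
  filter_upwards [hx.eventually (grow C κ (max (L₀ : ℝ) 1) hC hκ), hlogN.eventually_ge_atTop 1,
    hsN.eventually_ge_atTop (2 / η), eventually_ge_atTop 1] with N hg hlog hN hN1
  intro H hH1 hH2 s hs R hR δ hδ hδ1
  obtain ⟨x1, x2, x3, x4, x5⟩ := hg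
  set x : ℝ := √(logb 2 (N : ℝ)) with hxd
  have hN1' : (1 : ℝ) ≤ N := by exact_mod_cast hN1
  have hN0 : (0 : ℝ) < N := by linarith
  have hlg0 : 0 ≤ logb 2 (N : ℝ) := Real.logb_nonneg (by norm_num) hN1'
  have hx2 : x ^ 2 = logb 2 (N : ℝ) := Real.sq_sqrt hlg0
  set m : ℕ := ⌈C * x⌉₊ with hm
  have hm1 : C * x ≤ m := Nat.le_ceil _
  have hm2 : (m : ℝ) < C * x + 1 := Nat.ceil_lt_add_one (by positivity)
  have hm4 : 4 / κ ≤ m := x5.trans hm1
  have hκm : 4 ≤ κ * m := by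
    rw [div_le_iff₀ hκ] at hm4
    linarith
  have hm0 : 1 ≤ m := by
    by_contra hc
    have : m = 0 := by omega
    rw [this] at hκm
    norm_num at hκm
  have hm0' : (1 : ℝ) ≤ m := by exact_mod_cast hm0
  set p : ℕ := 2 ^ m with hp
  have hp0 : 0 < p := by positivity
  have hpr : (p : ℝ) = (2 : ℝ) ^ (m : ℝ) := by
    rw [hp, Real.rpow_natCast]
    push_cast
    rfl
  have hpr0 : (0 : ℝ) < p := by exact_mod_cast hp0
  set X : ℝ := 2 * N / p with hX
  have hX0 : 0 < X := by positivity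
  have hlX : logb 2 X = 1 + x ^ 2 - m := by
    rw [hX, Real.logb_div (by positivity) hpr0.ne', Real.logb_mul (by norm_num) hN0.ne', hpr,
      Real.logb_rpow (by norm_num) (by norm_num), Real.logb_self_eq_one (by norm_num), hx2]
  have hlX1 : x ^ 2 / 2 + 1 ≤ logb 2 X := by rw [hlX]; linarith
  set L : ℕ := ⌊logb 2 X⌋₊ with hL
  have hlX0 : 0 ≤ logb 2 X := by
    have : 0 ≤ x ^ 2 := sq_nonneg x
    linarith
  have hL1 : (L : ℝ) ≤ logb 2 X := Nat.floor_le hlX0
  have hL2 : logb 2 X < L + 1 := Nat.lt_floor_add_one _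
  have hL3 : x ^ 2 / 2 ≤ L := by linarith
  have hL4 : L₀ ≤ L := by
    have h1 : (L₀ : ℝ) ≤ L := ((le_max_left _ _).trans x4).trans hL3
    exact_mod_cast h1
  have hL5 : (1 : ℝ) ≤ L := ((le_max_right _ _).trans x4).trans hL3
  have hmL : C * √(L : ℝ) ≤ m := by
    refine le_trans ?_ hm1
    apply mul_le_mul_of_nonneg_left _ hC.le
    apply Real.sqrt_le_iff.2
    constructor
    · linarith
    · rw [hlX] at hL1
      linarith
  have hmL2 : (m : ℝ) ≤ (L : ℝ) ^ (11 / 20 : ℝ) := by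
    refine (hm2.le.trans x3).trans ?_
    exact Real.rpow_le_rpow (by positivity) hL3 (by norm_num)
  have hBad := hL₀ L hL4 s hs R hR δ hδ hδ1 X hX0 hL1 (by linarith) m hmL hmL2
  set Bad : Finset ℤ := (Finset.Ico ⌈kS s * X⌉ ⌈kS s * X + X⌉).filter fun y : ℤ =>
    ({c : ℕ | c < 2 ^ m ∧ 2 ^ m * y + c ∈ R}.ncard : ℝ) < (2 : ℝ) ^ ((1 - κ / 2) * m) with hBadd
  -- `H` is large
  have hHp : 4 * p ≤ H := by
    have h1 : (4 * p : ℝ) ≤ H := by
      refine le_trans ?_ hH1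
      have hl2 : 0 < Real.log 2 := Real.log_pos (by norm_num)
      have hl21 : Real.log 2 < 1 := by
        have := Real.log_two_lt_d9
        linarith
      have e1 : x * Real.log 2 ≤ √(Real.log N) := by
        have e2 : logb 2 (N : ℝ) * Real.log 2 = Real.log N := by
          unfold Real.logb
          field_simp
        apply Real.le_sqrt_of_sq_le
        rw [mul_pow, hx2, ← e2, sq, ← mul_assoc]
        apply mul_le_of_le_one_right (by positivity) hl21.le
      have e3 : 1 ≤ √(Real.log N) := Real.one_le_sqrt.2 hlog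
      have e4 : (p : ℝ) ≤ Real.exp (Real.log 2 * (C * x + 1)) := by
        rw [hpr, Real.rpow_def_of_pos (by norm_num)]
        apply Real.exp_le_exp.2
        exact mul_le_mul_of_nonneg_left hm2.le hl2.le
      have e5 : (4 : ℝ) = Real.exp (2 * Real.log 2) := by
        rw [mul_comm, Real.exp_mul, Real.exp_log (by norm_num)]
        norm_num
      calc (4 * p : ℝ) ≤ 4 * Real.exp (Real.log 2 * (C * x + 1)) := by gcongr
        _ = Real.exp (2 * Real.log 2 + Real.log 2 * (C * x + 1)) := by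
            rw [Real.exp_add, ← e5]
        _ ≤ Real.exp ((C + 3) * √(Real.log N)) := by
            apply Real.exp_le_exp.2
            have h5 : C * (x * Real.log 2) ≤ C * √(Real.log N) := mul_le_mul_of_nonneg_left e1 hC.le
            nlinarith
    exact_mod_cast h1
  have hHpr : (4 * p : ℝ) ≤ H := by exact_mod_cast hHp
  have hH0 : (0 : ℝ) < H := by linarith
  have hHN : (H : ℝ) ≤ N := hH2.trans (by
    rw [Real.sqrt_le_left hN0.le]
    nlinarith)
  have hHN' : H ≤ N := by exact_mod_cast hHN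
  -- the comparison of the two bounds
  have hvw : (H : ℝ) ^ (1 - κ) ≤ (H : ℝ) / (4 * p) * (2 : ℝ) ^ ((1 - κ / 2) * m) := by
    have f1 : (p : ℝ) ^ κ ≤ (H : ℝ) ^ κ := Real.rpow_le_rpow hpr0.le (by linarith) hκ.le
    have f2 : (H : ℝ) = (H : ℝ) ^ (1 - κ) * (H : ℝ) ^ κ := by
      rw [← Real.rpow_add hH0]
      simp
    have f3 : 4 * p ≤ (p : ℝ) ^ κ * (2 : ℝ) ^ ((1 - κ / 2) * m) := by
      rw [hpr, ← Real.rpow_mul (by norm_num), ← Real.rpow_add (by norm_num)]
      have e5 : (4 : ℝ) = (2 : ℝ) ^ (2 : ℝ) := by norm_num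
      rw [e5, ← Real.rpow_add (by norm_num)]
      apply Real.rpow_le_rpow_of_exponent_le (by norm_num)
      nlinarith
    rw [div_mul_eq_mul_div, le_div_iff₀ (by positivity)]
    calc (H : ℝ) ^ (1 - κ) * (4 * p) ≤ (H : ℝ) ^ (1 - κ) * ((p : ℝ) ^ κ * (2 : ℝ) ^ ((1 - κ / 2) * m)) := by
          gcongr
      _ ≤ (H : ℝ) ^ (1 - κ) * ((H : ℝ) ^ κ * (2 : ℝ) ^ ((1 - κ / 2) * m)) := by gcongr
      _ = (H : ℝ) * (2 : ℝ) ^ ((1 - κ / 2) * m) := by rw [← mul_assoc, ← f2]
  classical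
  set E : Finset ℕ := (Icc 1 N).filter fun n => (ch H R (s * n) : ℝ) < (H : ℝ) ^ (1 - κ) ∧ (s = 1 ∨ H ≤ n) with hE
  have hcomb := comb hp0 hHp hs E Bad R ((2 : ℝ) ^ ((1 - κ / 2) * m)) ((H : ℝ) ^ (1 - κ)) (by positivity)
    (fun n hn => ((mem_filter.1 hn).2).1) (by
      intro n hn y hy hyB
      rw [hE, mem_filter, mem_Icc] at hn
      obtain ⟨⟨hn1, hn2⟩, -, hn3⟩ := hn
      have hy2 := Yb_mem hp0 hy
      by_contra hlt
      push Not at hlt
      apply hyB
      rw [hBadd, mem_filter]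
      refine ⟨?_, ?_⟩
      · have hn2' : (n : ℝ) ≤ N := by exact_mod_cast hn2
        have k1 : (((s * n + 1 : ℤ)) : ℝ) ≤ (((p : ℤ) * y : ℤ) : ℝ) := by exact_mod_cast hy2.1
        have k2 : ((((p : ℤ) * y + p : ℤ)) : ℝ) ≤ ((s * n + H : ℤ) : ℝ) := by exact_mod_cast hy2.2
        push_cast at k1 k2
        have k3 : (p : ℝ) * X = 2 * N := by rw [hX]; field_simp
        rw [Finset.mem_Ico, Int.ceil_le, Int.lt_ceil]
        rcases hs with rfl | rfl
        · have hk : kS 1 = 0 := by unfold kS; simp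
          rw [hk]
          push_cast at k1 k2
          have hn0 : (0 : ℝ) ≤ n := Nat.cast_nonneg n
          constructor
          · have h5 : (0 : ℝ) < p * y := by linarith
            have h6 := (mul_pos_iff_of_pos_left hpr0).1 h5
            linarith
          · have h5 : (p : ℝ) * y < p * X := by rw [k3]; linarith
            have h6 := lt_of_mul_lt_mul_left h5 hpr0.le
            linarith
        · have hk : kS (-1) = -1 := by unfold kS; norm_num
          rw [hk]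
          push_cast at k1 k2
          have hn3' : H ≤ n := by
            rcases hn3 with h | h
            · norm_num at h
            · exact h
          have hn3r : (H : ℝ) ≤ n := by exact_mod_cast hn3'
          constructor
          · have h5 : (p : ℝ) * (-1 * X) ≤ p * y := by
              have : (p : ℝ) * (-1 * X) = -(p * X) := by ring
              rw [this, k3]
              linarith
            exact le_of_mul_le_mul_left h5 hpr0
          · have h5 : (p : ℝ) * y < p * (-1 * X + X) := by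
              have : (p : ℝ) * (-1 * X + X) = 0 := by ring
              rw [this]
              linarith
            exact lt_of_mul_lt_mul_left h5 hpr0.le
      · have e := cb_eq p R y
        rw [hp] at e
        push_cast at e
        rw [e]
        exact hlt) hvw
  have hcE : (#E : ℝ) ≤ η / 2 * N := by
    have h1 : (#E : ℝ) * ((H : ℝ) / (4 * p)) ≤ (η / 16 * X) * H :=
      hcomb.trans (mul_le_mul_of_nonneg_right hBad hH0.le)
    have h2 : (η / 16 * X) * H = (η / 2 * N) * ((H : ℝ) / (4 * p)) := by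
      rw [hX]; field_simp; ring
    rw [h2] at h1
    exact le_of_mul_le_mul_right h1 (by positivity)
  have hsub : {n : ℕ | (1 ≤ n ∧ n ≤ N) ∧ ({h : ℕ | (1 ≤ h ∧ h ≤ H) ∧ s * n + h ∈ R}.ncard : ℝ) < (H : ℝ) ^ (1 - κ)} ⊆
      ((E ∪ range H : Finset ℕ) : Set ℕ) := by
    rintro n ⟨⟨h1, h2⟩, h3⟩
    rw [ch_eq] at h3
    rw [mem_coe, mem_union, mem_range]
    by_cases h : H ≤ n
    · left
      rw [hE, mem_filter, mem_Icc]
      exact ⟨⟨h1, h2⟩, h3, Or.inr h⟩
    · right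
      omega
  have h1 := Set.ncard_le_ncard hsub (Finset.finite_toSet _)
  rw [Set.ncard_coe_finset] at h1
  have h2 : #(E ∪ range H) ≤ #E + H := by
    refine (card_union_le _ _).trans ?_
    rw [card_range]
  have h3 : ({n : ℕ | (1 ≤ n ∧ n ≤ N) ∧ ({h : ℕ | (1 ≤ h ∧ h ≤ H) ∧ s * n + h ∈ R}.ncard : ℝ) < (H : ℝ) ^ (1 - κ)}.ncard : ℝ) ≤
      #E + H := by exact_mod_cast h1.trans h2
  have h4 : √(N : ℝ) ≤ η / 2 * N := by
    have h5 : √(N : ℝ) * √(N : ℝ) = N := Real.mul_self_sqrt hN0.le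
    rw [div_le_iff₀ hη] at hN
    nlinarith [Real.sqrt_nonneg (N : ℝ)]
  linarith

end Pool.Agent.J4H30.SI
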